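import Mathlib.Analysis.CStarAlgebra.Matrix
import Mathlib.Analysis.CStarAlgebra.Classes
import Mathlib.Analysis.CStarAlgebra.ContinuousFunctionalCalculus.Order
import Mathlib.Analysis.CStarAlgebra.ContinuousFunctionalCalculus.Instances

/-! # The quantum automorphism group of the complete hypergraph

The quantum automorphism group of the complete hypergraph on a finite set `V` is the classical
symmetric group on `V`; it equals the quantum permutation group of `V` if and only if `V` has at
most three elements. -/

set_option linter.unusedSectionVars false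

namespace Pool.Agent.Results.MP_8cf907_al.CompleteHypergraph

open Matrix

universe u v

/-- A magic unitary over a unital C*-algebra: a square matrix of projections with all row sums and
column sums equal to `1`. -/
structure IsMagicUnitary {X : Type*} [Fintype X] {B : Type*} [CStarAlgebra B]
    (u : Matrix X X B) : Prop where
  selfadjoint : ∀ i j, star (u i j) = u i j
  idempotent : ∀ i j, u i j * u i j = u i j
  row_sum : ∀ i, ∑ j, u i j = 1
  col_sum : ∀ j, ∑ i, u i j = 1

/-- A (finite) hypergraph with vertex set `V` and edge set `E`: source and range of each edge are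
subsets of `V`. -/
structure Hypergraph (V E : Type*) where
  /-- the source of an edge -/
  s : E → Finset V
  /-- the range of an edge -/
  r : E → Finset V

/-- The incidence matrix of a map `t` from edges to sets of vertices: its entry at `(v, e)` is `1`
if `v ∈ t e`, and `0` otherwise. -/
def incidence {V E : Type*} [DecidableEq V] (B : Type*) [Semiring B] (t : E → Finset V) :
    Matrix V E B :=
  fun v e => if v ∈ t e then 1 else 0

/-- The defining relations of the quantum automorphism group of a hypergraph `Γ`, for matrices `u`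
and `w` over a unital C*-algebra: `u` and `w` are magic unitaries with `A_s w = u A_s` and
`A_r w = u A_r`. -/
structure Relations {V E : Type*} [Fintype V] [Fintype E] [DecidableEq V] (Γ : Hypergraph V E)
    {B : Type*} [CStarAlgebra B] (u : Matrix V V B) (w : Matrix E E B) : Prop where
  magic_vertices : IsMagicUnitary u
  magic_edges : IsMagicUnitary w
  source : incidence B Γ.s * w = u * incidence B Γ.s
  range : incidence B Γ.r * w = u * incidence B Γ.r

/-- `(A, u ⊕ w)` is the quantum automorphism group of the hypergraph `Γ`: `A` is the universal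
unital C*-algebra generated by the entries of `u` and `w` subject to the relations. -/
def IsQuantumAutomorphismGroup {V E : Type*} [Fintype V] [Fintype E] [DecidableEq V]
    (Γ : Hypergraph V E) (A : Type*) [CStarAlgebra A] (u : Matrix V V A) (w : Matrix E E A) :
    Prop :=
  Relations Γ u w ∧ ∀ (B : Type v) [CStarAlgebra B] (u' : Matrix V V B) (w' : Matrix E E B),
    Relations Γ u' w' → ∃! π : A →⋆ₐ[ℂ] B, u.map π = u' ∧ w.map π = w'

/-- `(A, u)` is the quantum permutation group of `V`: `A` is the universal unital C*-algebra
generated by the entries of a magic unitary `u`. -/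
def IsQuantumPermutationGroup {V : Type*} [Fintype V] (A : Type*) [CStarAlgebra A]
    (u : Matrix V V A) : Prop :=
  IsMagicUnitary u ∧ ∀ (B : Type v) [CStarAlgebra B] (u' : Matrix V V B),
    IsMagicUnitary u' → ∃! π : A →⋆ₐ[ℂ] B, u.map π = u'

/-- The complete hypergraph on `V`: its edges are all pairs `(X, Y)` of subsets of `V`, with source
`X` and range `Y`. -/
def complete (V : Type*) : Hypergraph V (Finset V × Finset V) where
  s := Prod.fst
  r := Prod.snd

/-- The functions `u v w : S_V → ℂ`, `σ ↦ 1` if `σ w = v` and `σ ↦ 0` otherwise, in the commutative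
C*-algebra `C(S_V)` of all functions on the symmetric group of `V`. -/
noncomputable def classicalVertices (V : Type*) [DecidableEq V] :
    Matrix V V (Equiv.Perm V → ℂ) :=
  fun v w σ => if σ w = v then 1 else 0

/-- The functions `σ ↦ 1` if `σ` maps the edge `f = (X, Y)` to the edge `e`, and `σ ↦ 0` otherwise. -/
noncomputable def classicalEdges (V : Type*) [DecidableEq V] :
    Matrix (Finset V × Finset V) (Finset V × Finset V) (Equiv.Perm V → ℂ) :=
  fun e f σ => if (f.1.map σ.toEmbedding, f.2.map σ.toEmbedding) = e then 1 else 0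

section Orth

variable {X : Type*} [Fintype X] {B : Type*} [CStarAlgebra B]

theorem orthogonal_of_sum_eq_one {p : X → B} (hs : ∀ i, star (p i) = p i)
    (hp : ∀ i, p i * p i = p i) (h : ∑ i, p i = 1) {i j : X} (hij : i ≠ j) : p i * p j = 0 := by
  classical
  let _ : PartialOrder B := CStarAlgebra.spectralOrder B
  have _ : StarOrderedRing B := CStarAlgebra.spectralOrderedRing B
  have h1 : ∑ k, p j * p k * p j = p j := by
    rw [← Finset.sum_mul, ← Finset.mul_sum, h, mul_one, hp]
  have h2 : ∑ k ∈ Finset.univ.erase j, p j * p k * p j = 0 := by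
    have := Finset.sum_erase_add (Finset.univ : Finset X) (fun k => p j * p k * p j)
      (Finset.mem_univ j)
    rw [h1, hp, hp] at this
    simpa using this
  have h3 : ∀ k, p j * p k * p j = star (p k * p j) * (p k * p j) := by
    intro k
    rw [star_mul, hs, hs, mul_assoc, mul_assoc, ← mul_assoc (p k) (p k), hp]
  have h4 := (Finset.sum_eq_zero_iff_of_nonneg (fun k _ => by
    rw [h3 k]; exact star_mul_self_nonneg _)).mp h2 i (Finset.mem_erase.mpr ⟨hij, Finset.mem_univ _⟩)
  rw [h3] at h4
  exact (CStarRing.star_mul_self_eq_zero_iff _).mp h4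

variable {u : Matrix X X B}

theorem IsMagicUnitary.row_orth (hu : IsMagicUnitary u) {i j k : X} (h : j ≠ k) :
    u i j * u i k = 0 :=
  orthogonal_of_sum_eq_one (p := fun j => u i j) (hu.selfadjoint i) (hu.idempotent i)
    (hu.row_sum i) h

theorem IsMagicUnitary.col_orth (hu : IsMagicUnitary u) {i j k : X} (h : j ≠ k) :
    u j i * u k i = 0 :=
  orthogonal_of_sum_eq_one (p := fun j => u j i) (fun j => hu.selfadjoint j i)
    (fun j => hu.idempotent j i) (hu.col_sum i) h

theorem IsMagicUnitary.comm_of_eq (hu : IsMagicUnitary u) {i j k l : X}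
    (h : u i j * u k l = u i j * u k l * u i j) : u i j * u k l = u k l * u i j := by
  have h1 := congrArg star h
  simp only [star_mul, hu.selfadjoint] at h1
  rw [h, h1, mul_assoc]

end Orth

section Main

variable {V : Type u} [Fintype V] [DecidableEq V] {B : Type v} [CStarAlgebra B]
variable {m : Matrix V V B}

/-- In a quantum automorphism of the complete hypergraph the entries on the vertices commute. -/
theorem Relations.commute {w : Matrix (Finset V × Finset V) (Finset V × Finset V) B}
    (h : Relations (complete V) m w) (i j k l : V) : m i j * m k l = m k l * m i j := by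
  have hm := h.magic_vertices
  by_cases hik : i = k
  · subst hik
    by_cases hjl : j = l
    · rw [hjl]
    · rw [hm.row_orth hjl, hm.row_orth (Ne.symm hjl)]
  by_cases hjl : j = l
  · subst hjl
    rw [hm.col_orth hik, hm.col_orth (Ne.symm hik)]
  -- the relation at the edge `({j, l}, ∅)`
  have hrel : ∀ v : V, ∑ f : Finset V × Finset V, (if v ∈ f.1 then w f ({j, l}, ∅) else 0) =
      m v j + m v l := by
    intro v
    have := congrFun (congrFun h.source v) ({j, l}, ∅)
    simp only [Matrix.mul_apply, incidence, complete, ite_mul, one_mul, zero_mul, mul_ite, mul_one,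
      mul_zero] at this
    rw [this, ← Finset.sum_filter]
    have : (Finset.univ.filter fun x : V => x ∈ ({j, l} : Finset V)) = {j, l} := by
      ext x; simp
    rw [this, Finset.sum_pair hjl]
  have hcomm : ∀ v v' : V, (m v j + m v l) * (m v' j + m v' l) =
      (m v' j + m v' l) * (m v j + m v l) := by
    have key : ∀ v v' : V, (m v j + m v l) * (m v' j + m v' l) =
        ∑ f : Finset V × Finset V, (if v ∈ f.1 ∧ v' ∈ f.1 then w f ({j, l}, ∅) else 0) := by
      intro v v'
      rw [← hrel v, ← hrel v', Finset.sum_mul_sum]
      refine Finset.sum_congr rfl fun f _ => ?_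
      rw [Finset.sum_eq_single f]
      · by_cases h1 : v ∈ f.1 <;> by_cases h2 : v' ∈ f.1 <;>
          simp [h1, h2, h.magic_edges.idempotent]
      · intro g _ hg
        by_cases h1 : v ∈ f.1 <;> by_cases h2 : v' ∈ g.1 <;>
          simp [h1, h2, h.magic_edges.col_orth (Ne.symm hg)]
      · intro hf; exact absurd (Finset.mem_univ _) hf
    intro v v'
    rw [key, key]
    simp only [and_comm]
  apply hm.comm_of_eq
  have h1 := congrArg (fun z => m i j * z) (hcomm i k)
  simp only [mul_add, add_mul] at h1
  have a1 : m i j * (m i j * m k j) = 0 := by rw [hm.col_orth hik, mul_zero]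
  have a2 : m i j * (m i j * m k l) = m i j * m k l := by rw [← mul_assoc, hm.idempotent]
  have a3 : m i j * (m i l * m k j) = 0 := by rw [← mul_assoc, hm.row_orth hjl, zero_mul]
  have a4 : m i j * (m i l * m k l) = 0 := by rw [← mul_assoc, hm.row_orth hjl, zero_mul]
  have b1 : m i j * (m k j * m i j) = 0 := by rw [← mul_assoc, hm.col_orth hik, zero_mul]
  have b2 : m i j * (m k j * m i l) = 0 := by rw [← mul_assoc, hm.col_orth hik, zero_mul]
  have b3 : m i j * (m k l * m i l) = 0 := by rw [hm.col_orth (Ne.symm hik), mul_zero]
  rw [a1, a2, a3, a4, b1, b2, b3, ← mul_assoc] at h1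
  simpa using h1

/-- In a commutative ring: the products `∏ v, U (σ v) v` sum to `1`. -/
theorem sum_prod_eq_one {R : Type*} [CommRing R] {U : V → V → R}
    (row : ∀ i j k, j ≠ k → U i j * U i k = 0) (col : ∀ j, ∑ i, U i j = 1) :
    ∑ σ : Equiv.Perm V, ∏ v, U (σ v) v = 1 := by
  have h1 : ∏ v : V, ∑ x : V, U x v = 1 := by simp [col]
  rw [Finset.prod_univ_sum] at h1
  rw [← h1]
  symm
  have : ∑ f : V → V, ∏ v, U (f v) v = ∑ σ : Equiv.Perm V, ∏ v, U (σ v) v := by
    classical
    have h2 : ∑ σ : Equiv.Perm V, ∏ v, U (σ v) v =
        ∑ f ∈ Finset.univ.image (fun σ : Equiv.Perm V => (σ : V → V)), ∏ v, U (f v) v := by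
      rw [Finset.sum_image]
      intro σ _ τ _ hst
      exact Equiv.coe_fn_injective hst
    rw [h2]
    symm
    apply Finset.sum_subset (Finset.subset_univ _)
    intro f _ hf
    have hf' : ¬ Function.Injective f := by
      intro hinj
      apply hf
      rw [Finset.mem_image]
      exact ⟨Equiv.ofBijective f (Finite.injective_iff_bijective.mp hinj), Finset.mem_univ _, rfl⟩
    rw [Function.Injective] at hf'
    push Not at hf'
    obtain ⟨a, b, hab, hne⟩ := hf'
    rw [← Finset.mul_prod_erase _ _ (Finset.mem_univ a),
      ← Finset.mul_prod_erase _ _ (Finset.mem_erase.mpr ⟨Ne.symm hne, Finset.mem_univ b⟩),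
      ← mul_assoc, ← hab, row _ _ _ hne, zero_mul]
  simpa [Fintype.piFinset_univ] using this

/-- A magic unitary with commuting entries comes from a system of orthogonal projections indexed
by the permutations. -/
theorem exists_projections (hm : IsMagicUnitary m)
    (hc : ∀ i j k l, m i j * m k l = m k l * m i j) :
    ∃ P : Equiv.Perm V → B, ∑ σ, P σ = 1 ∧
      (∀ σ i j, P σ * m i j = if i = σ j then P σ else 0) ∧
      (∀ σ i j, m i j * P σ = if i = σ j then P σ else 0) := by
  classical
  let S : Set B := Set.range fun p : V × V => m p.1 p.2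
  have hS : ∀ a ∈ S, ∀ b ∈ S, a * b = b * a := by
    rintro _ ⟨p, rfl⟩ _ ⟨q, rfl⟩
    exact hc _ _ _ _
  have hmc : IsMulCommutative (Algebra.adjoin ℂ S) := Algebra.isMulCommutative_adjoin ℂ hS
  let _ : CommRing (Algebra.adjoin ℂ S) :=
    { (inferInstance : Ring (Algebra.adjoin ℂ S)) with
      mul_comm := fun a b => hmc.is_comm.comm a b }
  let U : V → V → Algebra.adjoin ℂ S := fun i j => ⟨m i j, Algebra.subset_adjoin ⟨(i, j), rfl⟩⟩
  have hrow : ∀ i j k, j ≠ k → U i j * U i k = 0 := by
    intro i j k hjk
    apply Subtype.ext
    exact hm.row_orth hjk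
  have hcolo : ∀ i j k, j ≠ k → U j i * U k i = 0 := by
    intro i j k hjk
    apply Subtype.ext
    exact hm.col_orth hjk
  have hid : ∀ i j, U i j * U i j = U i j := by
    intro i j
    apply Subtype.ext
    exact hm.idempotent i j
  have hcoe : ∀ (T : Finset V) (f : V → Algebra.adjoin ℂ S),
      ((∑ i ∈ T, f i : Algebra.adjoin ℂ S) : B) = ∑ i ∈ T, (f i : B) := by
    intro T f
    exact map_sum (Algebra.adjoin ℂ S).val f T
  have hcol : ∀ j, ∑ i, U i j = 1 := by
    intro j
    apply Subtype.ext
    rw [hcoe]
    exact hm.col_sum j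
  have hP : ∀ σ : Equiv.Perm V, ∀ i j,
      (∏ v, U (σ v) v) * U i j = if i = σ j then (∏ v, U (σ v) v) else 0 := by
    intro σ i j
    rw [← Finset.mul_prod_erase _ _ (Finset.mem_univ j)]
    by_cases hij : i = σ j
    · rw [if_pos hij, hij, mul_right_comm, hid]
    · rw [if_neg hij, mul_right_comm, hcolo _ _ _ (Ne.symm hij), zero_mul]
  refine ⟨fun σ => ((∏ v, U (σ v) v : Algebra.adjoin ℂ S) : B), ?_, ?_, ?_⟩
  · have := congrArg (Algebra.adjoin ℂ S).val (sum_prod_eq_one hrow hcol)
    rw [map_sum, map_one] at this
    exact this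
  · intro σ i j
    have := congrArg (Algebra.adjoin ℂ S).val (hP σ i j)
    rw [map_mul] at this
    rw [apply_ite (Algebra.adjoin ℂ S).val, map_zero] at this
    exact this
  · intro σ i j
    have h0 := hP σ i j
    rw [mul_comm] at h0
    have := congrArg (Algebra.adjoin ℂ S).val h0
    rw [map_mul] at this
    rw [apply_ite (Algebra.adjoin ℂ S).val, map_zero] at this
    exact this

end Main

section Hom

variable {V : Type u} [Fintype V] [DecidableEq V] {B : Type v} [CStarAlgebra B]
variable {m : Matrix V V B}

theorem star_orth {P : Equiv.Perm V → B} (hm : IsMagicUnitary m)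
    (h2 : ∀ σ i j, P σ * m i j = if i = σ j then P σ else 0)
    {σ τ : Equiv.Perm V} (hst : σ ≠ τ) : P σ * star (P τ) = 0 := by
  obtain ⟨v, hv⟩ : ∃ v, σ v ≠ τ v := by
    by_contra hcon
    push Not at hcon
    exact hst (Equiv.ext hcon)
  have h3 : star (P τ) = m (τ v) v * star (P τ) := by
    have := congrArg star (h2 τ (τ v) v)
    rw [if_pos rfl, star_mul, hm.selfadjoint] at this
    exact this.symm
  rw [h3, ← mul_assoc, h2, if_neg (Ne.symm hv), zero_mul]

theorem self_star {P : Equiv.Perm V → B} (hm : IsMagicUnitary m) (h1 : ∑ σ, P σ = 1)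
    (h2 : ∀ σ i j, P σ * m i j = if i = σ j then P σ else 0) (σ : Equiv.Perm V) :
    P σ * star (P σ) = P σ := by
  have h4 : P σ * star (∑ τ, P τ) = P σ := by rw [h1, star_one, mul_one]
  rw [star_sum, Finset.mul_sum, Finset.sum_eq_single σ] at h4
  · exact h4
  · intro τ _ hτ
    exact star_orth hm h2 (Ne.symm hτ)
  · intro h; exact absurd (Finset.mem_univ _) h

theorem P_star {P : Equiv.Perm V → B} (hm : IsMagicUnitary m) (h1 : ∑ σ, P σ = 1)
    (h2 : ∀ σ i j, P σ * m i j = if i = σ j then P σ else 0) (σ : Equiv.Perm V) :
    star (P σ) = P σ := by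
  have h5 := self_star hm h1 h2 σ
  have h6 := congrArg star h5
  rw [star_mul, star_star, h5] at h6
  exact h6.symm

theorem P_orth {P : Equiv.Perm V → B} (hm : IsMagicUnitary m) (h1 : ∑ σ, P σ = 1)
    (h2 : ∀ σ i j, P σ * m i j = if i = σ j then P σ else 0) (σ τ : Equiv.Perm V) :
    P σ * P τ = if σ = τ then P σ else 0 := by
  by_cases hst : σ = τ
  · rw [if_pos hst, ← hst]
    have := self_star hm h1 h2 σ
    rwa [P_star hm h1 h2] at this
  · rw [if_neg hst]
    have := star_orth hm h2 hst
    rwa [P_star hm h1 h2] at this

theorem entry_eq {P : Equiv.Perm V → B} (h1 : ∑ σ, P σ = 1)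
    (h2 : ∀ σ i j, P σ * m i j = if i = σ j then P σ else 0) (i j : V) :
    m i j = ∑ σ : Equiv.Perm V, if σ j = i then P σ else 0 := by
  have : m i j = (∑ σ, P σ) * m i j := by rw [h1, one_mul]
  rw [this, Finset.sum_mul]
  refine Finset.sum_congr rfl fun σ _ => ?_
  rw [h2]
  simp only [eq_comm]

/-- The homomorphism defined by a system of orthogonal projections. -/
noncomputable def hom (P : Equiv.Perm V → B) (h1 : ∑ σ, P σ = 1)
    (hst : ∀ σ, star (P σ) = P σ)
    (ho : ∀ σ τ, P σ * P τ = if σ = τ then P σ else 0) : (Equiv.Perm V → ℂ) →⋆ₐ[ℂ] B where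
  toFun f := ∑ σ, f σ • P σ
  map_one' := by simpa using h1
  map_mul' f g := by
    rw [Finset.sum_mul_sum]
    refine Finset.sum_congr rfl fun σ _ => ?_
    rw [Finset.sum_eq_single σ]
    · rw [smul_mul_smul_comm, ho, if_pos rfl, Pi.mul_apply]
    · intro τ _ hτ
      rw [smul_mul_smul_comm, ho, if_neg (Ne.symm hτ), smul_zero]
    · intro h; exact absurd (Finset.mem_univ _) h
  map_zero' := by simp
  map_add' f g := by simp [add_smul, Finset.sum_add_distrib]
  commutes' c := by
    simp only [Pi.algebraMap_apply, Algebra.algebraMap_self, RingHom.id_apply]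
    rw [← Finset.smul_sum, h1, Algebra.algebraMap_eq_smul_one]
  map_star' f := by
    rw [star_sum]
    refine Finset.sum_congr rfl fun σ _ => ?_
    rw [star_smul, hst, Pi.star_apply]

theorem hom_apply (P : Equiv.Perm V → B) (h1 : ∑ σ, P σ = 1)
    (hst : ∀ σ, star (P σ) = P σ)
    (ho : ∀ σ τ, P σ * P τ = if σ = τ then P σ else 0) (f : Equiv.Perm V → ℂ) :
    hom P h1 hst ho f = ∑ σ, f σ • P σ := rfl

/-- The classical vertex functions generate the algebra of all functions. -/
theorem adjoin_classicalVertices :
    Algebra.adjoin ℂ (Set.range fun p : V × V => classicalVertices V p.1 p.2) = ⊤ := by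
  rw [eq_top_iff]
  intro f _
  have hf : f = ∑ σ : Equiv.Perm V, f σ • ∏ v, classicalVertices V (σ v) v := by
    ext τ
    rw [Finset.sum_apply, Finset.sum_eq_single τ]
    · simp [classicalVertices]
    · intro σ _ hσ
      obtain ⟨v, hv⟩ : ∃ v, σ v ≠ τ v := by
        by_contra hcon
        push Not at hcon
        exact hσ (Equiv.ext hcon)
      rw [Pi.smul_apply, Finset.prod_apply, Finset.prod_eq_zero (Finset.mem_univ v), smul_zero]
      rw [classicalVertices, if_neg (Ne.symm hv)]
    · intro h; exact absurd (Finset.mem_univ _) h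
  rw [hf]
  refine Subalgebra.sum_mem _ fun σ _ => Subalgebra.smul_mem _ (Subalgebra.prod_mem _ fun v _ => ?_) _
  exact Algebra.subset_adjoin ⟨(σ v, v), rfl⟩

theorem hom_ext {f g : (Equiv.Perm V → ℂ) →⋆ₐ[ℂ] B}
    (h : (classicalVertices V).map f = (classicalVertices V).map g) : f = g := by
  have h1 : (f : (Equiv.Perm V → ℂ) →ₐ[ℂ] B) = (g : (Equiv.Perm V → ℂ) →ₐ[ℂ] B) := by
    apply AlgHom.ext_of_adjoin_eq_top adjoin_classicalVertices
    rintro _ ⟨p, rfl⟩
    exact congrFun (congrFun h p.1) p.2
  ext x
  exact congrArg (fun k : (Equiv.Perm V → ℂ) →ₐ[ℂ] B => k x) h1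

theorem classicalVertices_magic : IsMagicUnitary (classicalVertices V) where
  selfadjoint i j := by
    ext σ
    by_cases h : σ j = i <;> simp [classicalVertices, h]
  idempotent i j := by
    ext σ
    by_cases h : σ j = i <;> simp [classicalVertices, h]
  row_sum i := by
    ext σ
    rw [Finset.sum_apply, Finset.sum_eq_single (σ.symm i)]
    · simp [classicalVertices]
    · intro j _ hj
      rw [classicalVertices, if_neg]
      rintro rfl
      simp at hj
    · intro h; exact absurd (Finset.mem_univ _) h
  col_sum j := by
    ext σ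
    rw [Finset.sum_apply, Finset.sum_eq_single (σ j)]
    · simp [classicalVertices]
    · intro i _ hi
      rw [classicalVertices, if_neg (Ne.symm hi)]
    · intro h; exact absurd (Finset.mem_univ _) h

theorem classicalEdges_magic : IsMagicUnitary (classicalEdges V) where
  selfadjoint i j := by
    ext σ
    by_cases h : (j.1.map σ.toEmbedding, j.2.map σ.toEmbedding) = i <;> simp [classicalEdges, h]
  idempotent i j := by
    ext σ
    by_cases h : (j.1.map σ.toEmbedding, j.2.map σ.toEmbedding) = i <;> simp [classicalEdges, h]
  row_sum i := by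
    ext σ
    rw [Finset.sum_apply, Finset.sum_eq_single
      (i.1.map σ.symm.toEmbedding, i.2.map σ.symm.toEmbedding)]
    · simp [classicalEdges, Finset.map_map]
    · intro j _ hj
      rw [classicalEdges, if_neg]
      rintro rfl
      simp [Finset.map_map] at hj
    · intro h; exact absurd (Finset.mem_univ _) h
  col_sum j := by
    ext σ
    rw [Finset.sum_apply, Finset.sum_eq_single (j.1.map σ.toEmbedding, j.2.map σ.toEmbedding)]
    · simp [classicalEdges]
    · intro i _ hi
      rw [classicalEdges, if_neg (Ne.symm hi)]
    · intro h; exact absurd (Finset.mem_univ _) h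

theorem classical_relations :
    Relations (complete V) (classicalVertices V) (classicalEdges V) where
  magic_vertices := classicalVertices_magic
  magic_edges := classicalEdges_magic
  source := by
    ext v e σ
    simp only [Matrix.mul_apply, Finset.sum_apply, incidence, complete, Pi.mul_apply]
    rw [Finset.sum_eq_single (e.1.map σ.toEmbedding, e.2.map σ.toEmbedding),
      Finset.sum_eq_single (σ.symm v)]
    · simp only [classicalEdges, classicalVertices, if_true, Equiv.apply_symm_apply]
      by_cases h : σ.symm v ∈ e.1
      · have h' : v ∈ e.1.map σ.toEmbedding := by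
          rw [Finset.mem_map]; exact ⟨_, h, by simp⟩
        simp [h]
      · have h' : v ∉ e.1.map σ.toEmbedding := by
          rw [Finset.mem_map]
          rintro ⟨x, hx, rfl⟩
          apply h
          simpa using hx
        simp [h]
    · intro x _ hx
      rw [classicalVertices, if_neg, zero_mul]
      rintro rfl
      simp at hx
    · intro h; exact absurd (Finset.mem_univ _) h
    · intro f _ hf
      rw [classicalEdges, if_neg (Ne.symm hf), mul_zero]
    · intro h; exact absurd (Finset.mem_univ _) h
  range := by
    ext v e σ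
    simp only [Matrix.mul_apply, Finset.sum_apply, incidence, complete, Pi.mul_apply]
    rw [Finset.sum_eq_single (e.1.map σ.toEmbedding, e.2.map σ.toEmbedding),
      Finset.sum_eq_single (σ.symm v)]
    · simp only [classicalEdges, classicalVertices, if_true, Equiv.apply_symm_apply]
      by_cases h : σ.symm v ∈ e.2
      · have h' : v ∈ e.2.map σ.toEmbedding := by
          rw [Finset.mem_map]; exact ⟨_, h, by simp⟩
        simp [h]
      · have h' : v ∉ e.2.map σ.toEmbedding := by
          rw [Finset.mem_map]
          rintro ⟨x, hx, rfl⟩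
          apply h
          simpa using hx
        simp [h]
    · intro x _ hx
      rw [classicalVertices, if_neg, zero_mul]
      rintro rfl
      simp at hx
    · intro h; exact absurd (Finset.mem_univ _) h
    · intro f _ hf
      rw [classicalEdges, if_neg (Ne.symm hf), mul_zero]
    · intro h; exact absurd (Finset.mem_univ _) h

end Hom

section Universal

variable {V : Type u} [Fintype V] [DecidableEq V] {B : Type v} [CStarAlgebra B]
variable {m : Matrix V V B}

/-- Multiplying by `P σ` kills every edge entry except `(σ e, e)`. -/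
theorem P_mul_edge {w : Matrix (Finset V × Finset V) (Finset V × Finset V) B}
    (h : Relations (complete V) m w) {P : Equiv.Perm V → B}
    (h2 : ∀ σ i j, P σ * m i j = if i = σ j then P σ else 0) (σ : Equiv.Perm V)
    (e f : Finset V × Finset V) (hne : (e.1.map σ.toEmbedding, e.2.map σ.toEmbedding) ≠ f) :
    P σ * w f e = 0 := by
  -- relation for a general family of edges sets
  have key : ∀ t : Finset V × Finset V → Finset V,
      incidence B t * w = m * incidence B t → ∀ v : V,
        (if v ∈ t f then P σ * w f e else 0) = (if σ.symm v ∈ t e then P σ * w f e else 0) := by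
    intro t ht v
    have h3 := congrFun (congrFun ht v) e
    simp only [Matrix.mul_apply, incidence, ite_mul, one_mul, zero_mul, mul_ite, mul_one,
      mul_zero] at h3
    have h4 := congrArg (fun z => P σ * (z * w f e)) h3
    simp only [Finset.sum_mul, Finset.mul_sum] at h4
    rw [Finset.sum_eq_single f, Finset.sum_eq_single (σ.symm v)] at h4
    · by_cases a : v ∈ t f <;> by_cases b : σ.symm v ∈ t e <;>
        simp only [a, b, if_true, if_false, h.magic_edges.idempotent, zero_mul, mul_zero] at h4 ⊢
      · exact h4
      · rw [← mul_assoc, h2, Equiv.apply_symm_apply, if_pos rfl] at h4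
        exact h4
    · intro x _ hx
      by_cases b : x ∈ t e
      · rw [if_pos b, ← mul_assoc, h2, if_neg, zero_mul]
        rintro rfl
        simp at hx
      · rw [if_neg b, zero_mul, mul_zero]
    · intro h'; exact absurd (Finset.mem_univ _) h'
    · intro g _ hg
      by_cases a : v ∈ t g
      · rw [if_pos a, h.magic_edges.col_orth hg, mul_zero]
      · rw [if_neg a, zero_mul, mul_zero]
    · intro h'; exact absurd (Finset.mem_univ _) h'
  by_contra hcon
  apply hne
  have hmem : ∀ t : Finset V × Finset V → Finset V,
      incidence B t * w = m * incidence B t → (t e).map σ.toEmbedding = t f := by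
    intro t ht
    ext v
    have h5 := key t ht v
    have h6 : v ∈ (t e).map σ.toEmbedding ↔ σ.symm v ∈ t e := by
      rw [Finset.mem_map_equiv]
    rw [h6]
    by_cases a : v ∈ t f <;> by_cases b : σ.symm v ∈ t e <;> simp only [a, b, if_true, if_false] at h5 ⊢
    · exact absurd h5 hcon
    · exact absurd h5.symm hcon
  exact Prod.ext (hmem Prod.fst h.source) (hmem Prod.snd h.range)

theorem edge_eq {w : Matrix (Finset V × Finset V) (Finset V × Finset V) B}
    (h : Relations (complete V) m w) {P : Equiv.Perm V → B} (h1 : ∑ σ, P σ = 1)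
    (h2 : ∀ σ i j, P σ * m i j = if i = σ j then P σ else 0) (f e : Finset V × Finset V) :
    w f e = ∑ σ : Equiv.Perm V,
      if (e.1.map σ.toEmbedding, e.2.map σ.toEmbedding) = f then P σ else 0 := by
  have : w f e = (∑ σ, P σ) * w f e := by rw [h1, one_mul]
  rw [this, Finset.sum_mul]
  refine Finset.sum_congr rfl fun σ _ => ?_
  by_cases hf : (e.1.map σ.toEmbedding, e.2.map σ.toEmbedding) = f
  · rw [if_pos hf]
    have h3 : P σ = ∑ g, P σ * w g e := by
      rw [← Finset.mul_sum, h.magic_edges.col_sum, mul_one]
    rw [Finset.sum_eq_single f] at h3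
    · exact h3.symm
    · intro g _ hg
      apply P_mul_edge h h2
      rw [hf]; exact Ne.symm hg
    · intro h'; exact absurd (Finset.mem_univ _) h'
  · rw [if_neg hf, P_mul_edge h h2 σ e f hf]

/-- Commuting entries: the magic unitary comes from a homomorphism from `C(S_V)`. -/
theorem exists_hom (hm : IsMagicUnitary m) (hc : ∀ i j k l, m i j * m k l = m k l * m i j) :
    ∃ π : (Equiv.Perm V → ℂ) →⋆ₐ[ℂ] B, (classicalVertices V).map π = m ∧
      ∀ w, Relations (complete V) m w → (classicalEdges V).map π = w := by
  obtain ⟨P, h1, h2, -⟩ := exists_projections hm hc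
  refine ⟨hom P h1 (P_star hm h1 h2) (P_orth hm h1 h2), ?_, ?_⟩
  · ext i j
    rw [Matrix.map_apply, hom_apply, entry_eq h1 h2]
    refine Finset.sum_congr rfl fun σ _ => ?_
    by_cases h : σ j = i <;> simp [classicalVertices, h]
  · intro w hw
    ext f e
    rw [Matrix.map_apply, hom_apply, edge_eq hw h1 h2]
    refine Finset.sum_congr rfl fun σ _ => ?_
    by_cases h : (e.1.map σ.toEmbedding, e.2.map σ.toEmbedding) = f <;> simp [classicalEdges, h]

theorem IsMagicUnitary.map {X : Type*} [Fintype X] {A : Type*} [CStarAlgebra A]
    {B : Type*} [CStarAlgebra B] {a : Matrix X X A}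
    (ha : IsMagicUnitary a) (π : A →⋆ₐ[ℂ] B) : IsMagicUnitary (a.map π) where
  selfadjoint i j := by rw [Matrix.map_apply, ← map_star, ha.selfadjoint]
  idempotent i j := by rw [Matrix.map_apply, ← map_mul, ha.idempotent]
  row_sum i := by
    simp only [Matrix.map_apply]
    rw [← map_sum, ha.row_sum, map_one]
  col_sum j := by
    simp only [Matrix.map_apply]
    rw [← map_sum, ha.col_sum, map_one]

theorem incidence_map {E : Type*} {A : Type*} [CStarAlgebra A] {B : Type*} [CStarAlgebra B]
    (t : E → Finset V) (π : A →⋆ₐ[ℂ] B) : (incidence A t).map π = incidence B t := by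
  ext v e
  simp only [Matrix.map_apply, incidence]
  split_ifs <;> simp

theorem Relations.map {E : Type*} [Fintype E] {Γ : Hypergraph V E} {A : Type*} [CStarAlgebra A]
    {B : Type*} [CStarAlgebra B] {a : Matrix V V A} {b : Matrix E E A}
    (h : Relations Γ a b) (π : A →⋆ₐ[ℂ] B) : Relations Γ (a.map π) (b.map π) where
  magic_vertices := h.magic_vertices.map π
  magic_edges := h.magic_edges.map π
  source := by
    have := congrArg (fun M => Matrix.map M π) h.source
    simp only [Matrix.map_mul, incidence_map] at this
    exact this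
  range := by
    have := congrArg (fun M => Matrix.map M π) h.range
    simp only [Matrix.map_mul, incidence_map] at this
    exact this

/-- With at most three points, magic unitaries have commuting entries. -/
theorem commute_of_card_le (hm : IsMagicUnitary m) (hV : Fintype.card V ≤ 3) (i j k l : V) :
    m i j * m k l = m k l * m i j := by
  by_cases hik : i = k
  · subst hik
    by_cases hjl : j = l
    · rw [hjl]
    · rw [hm.row_orth hjl, hm.row_orth (Ne.symm hjl)]
  by_cases hjl : j = l
  · subst hjl
    rw [hm.col_orth hik, hm.col_orth (Ne.symm hik)]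
  apply hm.comm_of_eq
  have h1 : m i j * m k l * ∑ z, m i z = m i j * m k l := by rw [hm.row_sum, mul_one]
  refine h1.symm.trans ?_
  rw [Finset.mul_sum, Finset.sum_eq_single j]
  · intro z _ hz
    by_cases hzl : z = l
    · rw [hzl, mul_assoc, hm.col_orth (Ne.symm hik), mul_zero]
    -- now `j, l, z` are all the points
    have huniv : ∀ t : V, t = j ∨ t = l ∨ t = z := by
      intro t
      by_contra hcon
      push Not at hcon
      have h3 : ({t, j, l, z} : Finset V).card = 4 := by
        rw [Finset.card_insert_of_notMem, Finset.card_insert_of_notMem,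
          Finset.card_insert_of_notMem, Finset.card_singleton]
        · simpa using Ne.symm hzl
        · simp only [Finset.mem_insert, Finset.mem_singleton, not_or]
          exact ⟨hjl, Ne.symm hz⟩
        · simp only [Finset.mem_insert, Finset.mem_singleton, not_or]
          exact ⟨hcon.1, hcon.2.1, hcon.2.2⟩
      have h4 := Finset.card_le_univ ({t, j, l, z} : Finset V)
      omega
    have h5 : m i j * (∑ t, m k t) * m i z = m i j * m k l * m i z := by
      rw [Finset.mul_sum, Finset.sum_mul, Finset.sum_eq_single l]
      · intro t _ ht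
        rcases huniv t with rfl | rfl | rfl
        · rw [hm.col_orth hik, zero_mul]
        · exact absurd rfl ht
        · rw [mul_assoc, hm.col_orth (Ne.symm hik), mul_zero]
      · intro h'; exact absurd (Finset.mem_univ _) h'
    rw [← h5, hm.row_sum, mul_one, hm.row_orth (Ne.symm hz)]
  · intro h'; exact absurd (Finset.mem_univ _) h'

end Universal

section FourPoints

open scoped Matrix.Norms.L2Operator

/-- The projection onto a coordinate. -/
noncomputable def projP {I : Type v} [DecidableEq I] (z : I) : Matrix I I ℂ :=
  Matrix.of fun i j => if i = z ∧ j = z then 1 else 0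

/-- The projection onto the constants. -/
noncomputable def projQ (I : Type v) [Fintype I] : Matrix I I ℂ :=
  Matrix.of fun _ _ => (Fintype.card I : ℂ)⁻¹

theorem projP_star {I : Type v} [DecidableEq I] (z : I) : star (projP z) = projP z := by
  ext i j
  simp only [projP, Matrix.star_apply, Matrix.of_apply]
  by_cases h1 : i = z <;> by_cases h2 : j = z <;> simp [h1, h2]

theorem projP_mul {I : Type v} [Fintype I] [DecidableEq I] (z : I) :
    projP z * projP z = projP z := by
  ext i j
  simp only [projP, Matrix.mul_apply, Matrix.of_apply]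
  rw [Finset.sum_eq_single z]
  · by_cases h1 : i = z <;> by_cases h2 : j = z <;> simp [h1, h2]
  · intro b _ hb; simp [hb]
  · intro h; exact absurd (Finset.mem_univ _) h

theorem projQ_star (I : Type v) [Fintype I] : star (projQ I) = projQ I := by
  ext i j
  simp only [projQ, Matrix.star_apply, Matrix.of_apply]
  simp

theorem projQ_mul (I : Type v) [Fintype I] [DecidableEq I] [Nonempty I] :
    projQ I * projQ I = projQ I := by
  ext i j
  simp only [projQ, Matrix.mul_apply, Matrix.of_apply, Finset.sum_const, Finset.card_univ,
    nsmul_eq_mul]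
  have : (Fintype.card I : ℂ) ≠ 0 := by
    exact_mod_cast Fintype.card_ne_zero
  field_simp

theorem projPQ_ne {I : Type v} [Fintype I] [DecidableEq I] {z o : I} (hzo : z ≠ o) :
    projP z * projQ I ≠ projQ I * projP z := by
  intro h
  have := congrFun (congrFun h z) o
  simp only [projP, projQ, Matrix.mul_apply, Matrix.of_apply] at this
  rw [Finset.sum_eq_single z] at this
  · have hc : (Fintype.card I : ℂ) ≠ 0 := by
      have : Nonempty I := ⟨z⟩
      exact_mod_cast Fintype.card_ne_zero
    simp [Ne.symm hzo, hc] at this
  · intro b _ hb; simp [hb]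
  · intro h; exact absurd (Finset.mem_univ _) h

/-- A noncommutative magic unitary on a set with four distinct points. -/
theorem exists_noncommuting (V : Type u) [Fintype V] [DecidableEq V] (hV : 4 ≤ Fintype.card V) :
    ∃ (B : Type v) (_ : CStarAlgebra B) (m : Matrix V V B), IsMagicUnitary m ∧
      ∃ i j k l, m i j * m k l ≠ m k l * m i j := by
  let I : Type v := ULift.{v} (Fin 2)
  let B : Type v := Matrix I I ℂ
  let z : I := ⟨0⟩
  let o : I := ⟨1⟩
  have hzo : z ≠ o := by
    intro h
    have := congrArg ULift.down h
    exact absurd this (by decide)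
  let p : B := projP z
  let q : B := projQ I
  have hp : star p = p ∧ p * p = p := ⟨projP_star z, projP_mul z⟩
  have hq : star q = q ∧ q * q = q := by
    have : Nonempty I := ⟨z⟩
    exact ⟨projQ_star I, projQ_mul I⟩
  have hpq : p * q ≠ q * p := projPQ_ne hzo
  -- four distinct points
  obtain ⟨s, -, hs⟩ := Finset.exists_subset_card_eq (s := (Finset.univ : Finset V)) (n := 4)
    (by simpa using hV)
  obtain ⟨a, b, c, d, hab, hac, had, hbc, hbd, hcd, -⟩ := Finset.card_eq_four.mp hs
  let ρ : Equiv.Perm V := Equiv.swap a b * Equiv.swap c d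
  let r : V → B := fun x => if x = a ∨ x = b then p else if x = c ∨ x = d then q else 1
  have hρa : ρ a = b := by
    simp [ρ, Equiv.swap_apply_of_ne_of_ne hac had]
  have hρb : ρ b = a := by
    simp [ρ, Equiv.swap_apply_of_ne_of_ne hbc hbd]
  have hρc : ρ c = d := by
    simp [ρ, Equiv.swap_apply_of_ne_of_ne (Ne.symm had) (Ne.symm hbd)]
  have hρd : ρ d = c := by
    simp [ρ, Equiv.swap_apply_of_ne_of_ne (Ne.symm hac) (Ne.symm hbc)]
  have hρx : ∀ x, x ≠ a → x ≠ b → x ≠ c → x ≠ d → ρ x = x := by
    intro x h1 h2 h3 h4
    simp [ρ, Equiv.swap_apply_of_ne_of_ne h3 h4, Equiv.swap_apply_of_ne_of_ne h1 h2]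
  have hrρ : ∀ x, r (ρ x) = r x := by
    intro x
    by_cases h1 : x = a
    · rw [h1, hρa]; simp [r]
    by_cases h2 : x = b
    · rw [h2, hρb]; simp [r]
    by_cases h3 : x = c
    · rw [h3, hρc]; simp [r, Ne.symm hac, Ne.symm hbc, Ne.symm had, Ne.symm hbd]
    by_cases h4 : x = d
    · rw [h4, hρd]; simp [r, Ne.symm hac, Ne.symm hbc, Ne.symm had, Ne.symm hbd]
    rw [hρx x h1 h2 h3 h4]
  have hr : ∀ x, star (r x) = r x ∧ r x * r x = r x := by
    intro x
    simp only [r]
    split_ifs
    · exact hp
    · exact hq
    · simp
  let m : Matrix V V B := fun v w => (if v = w then r w else 0) + (if v = ρ w then 1 - r w else 0)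
  refine ⟨B, inferInstance, m, ⟨?_, ?_, ?_, ?_⟩, a, a, c, c, ?_⟩
  · intro i j
    simp only [m, star_add]
    split_ifs <;> simp [(hr _).1]
  · intro i j
    simp only [m]
    split_ifs with h1 h2
    · simp
    · simp [(hr _).2]
    · simp [mul_sub, sub_mul, (hr _).2]
    · simp
  · intro i
    simp only [m]
    rw [Finset.sum_add_distrib, Finset.sum_eq_single i, Finset.sum_eq_single (ρ.symm i)]
    · simp only [if_true, Equiv.apply_symm_apply]
      have := hrρ (ρ.symm i)
      rw [Equiv.apply_symm_apply] at this
      rw [this]; simp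
    · intro j _ hj
      rw [if_neg]
      rintro rfl
      simp at hj
    · intro h; exact absurd (Finset.mem_univ _) h
    · intro j _ hj
      rw [if_neg (Ne.symm hj)]
    · intro h; exact absurd (Finset.mem_univ _) h
  · intro j
    simp only [m]
    rw [Finset.sum_add_distrib, Finset.sum_eq_single j, Finset.sum_eq_single (ρ j)]
    · simp
    · intro i _ hi
      rw [if_neg hi]
    · intro h; exact absurd (Finset.mem_univ _) h
    · intro i _ hi
      rw [if_neg hi]
    · intro h; exact absurd (Finset.mem_univ _) h
  · have h1 : m a a = p := by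
      simp only [m, hρa, if_true, if_neg hab, add_zero]
      simp [r]
    have h2 : m c c = q := by
      simp only [m, hρc, if_true, if_neg hcd, add_zero]
      simp [r, Ne.symm hac, Ne.symm hbc]
    rw [h1, h2]
    exact hpq

end FourPoints

/-- **Main theorem.**  Let `V` be a finite set and `Γ_V` the complete hypergraph on `V`.

1. The quantum automorphism group of `Γ_V` is the classical symmetric group `S_V` (acting on the
   vertices and the edges): the universal C*-algebra is `C(S_V)`, with the classical generators.
2. Every magic unitary indexed by `V` extends to a pair satisfying the relations of the quantum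
   automorphism group if and only if `V` has at most three elements.
3. If `(A, m)` is the quantum permutation group of `V`, there is a magic unitary `w` with entries
   in `A` satisfying the relations if and only if `V` has at most three elements. -/
theorem result (V : Type u) [Fintype V] [DecidableEq V] :
    IsQuantumAutomorphismGroup.{v} (complete V) (Equiv.Perm V → ℂ) (classicalVertices V)
      (classicalEdges V) ∧
    ((∀ (B : Type v) [CStarAlgebra B] (m : Matrix V V B), IsMagicUnitary m →
      ∃ w, Relations (complete V) m w) ↔ Fintype.card V ≤ 3) ∧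
    ∀ (A : Type v) [CStarAlgebra A] (m : Matrix V V A),
      IsQuantumPermutationGroup.{v} A m →
        ((∃ w, Relations (complete V) m w) ↔ Fintype.card V ≤ 3) := by
  have hback : Fintype.card V ≤ 3 → ∀ (B : Type v) [CStarAlgebra B] (m : Matrix V V B),
      IsMagicUnitary m → ∃ w, Relations (complete V) m w := by
    intro hV B _ m hm
    obtain ⟨π, h1, -⟩ := exists_hom hm (commute_of_card_le hm hV)
    refine ⟨(classicalEdges V).map π, ?_⟩
    have := classical_relations (V := V).map π
    rwa [h1] at this
  refine ⟨⟨classical_relations, ?_⟩, ⟨?_, hback⟩, ?_⟩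
  · intro B _ m w h
    obtain ⟨π, h1, h2⟩ := exists_hom h.magic_vertices h.commute
    refine ⟨π, ⟨h1, h2 w h⟩, ?_⟩
    rintro π' ⟨h3, -⟩
    exact hom_ext (h3.trans h1.symm)
  · intro h
    by_contra hV
    obtain ⟨B, _, m, hm, i, j, k, l, hne⟩ := exists_noncommuting.{u, v} V (by omega)
    obtain ⟨w, hw⟩ := h B m hm
    exact hne (hw.commute i j k l)
  · intro A _ m hA
    constructor
    · rintro ⟨w, hw⟩
      by_contra hV
      obtain ⟨B, _, m', hm', i, j, k, l, hne⟩ := exists_noncommuting.{u, v} V (by omega)
      obtain ⟨π, h1, -⟩ := hA.2 B m' hm'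
      have h2 := hw.commute i j k l
      apply hne
      have h3 := congrArg π h2
      rw [map_mul, map_mul] at h3
      rw [← h1]
      exact h3
    · intro hV
      exact hback hV A m hA.1

end Pool.Agent.Results.MP_8cf907_al.CompleteHypergraph
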